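import Pool.Agent.H73.CBD.Stmts

set_option autoImplicit false

open Set Filter Topology

namespace Pool.CBD

theorem lpf_nsq (i : Fin 2) : ContDiff ℝ 1 (fun z : V => ‖z i‖ ^ 2) :=
  (contDiff_apply ℝ ℂ i).norm_sq ℝ

theorem lpf_n4 (i : Fin 2) : ContDiff ℝ 1 (fun z : V => ‖z i‖ ^ 4) := by
  have h : (fun z : V => ‖z i‖ ^ 4) = fun z : V => (‖z i‖ ^ 2) ^ 2 := by
    funext z; ring
  rw [h]
  exact (lpf_nsq i).pow 2

theorem lpf_coord (i : Fin 2) : ContDiff ℝ 1 (fun z : V => z i) := contDiff_apply ℝ ℂ i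

theorem lpf_ofReal {g : V → ℝ} {z : V} (h : ContDiffAt ℝ 1 g z) :
    ContDiffAt ℝ 1 (fun z => ((g z : ℝ) : ℂ)) z :=
  (Complex.ofRealCLM.contDiff (n := 1)).contDiffAt.comp z h

theorem lpf_tau (hALG : ALGStmt) (z : V) (hz : z ≠ 0) : ContDiffAt ℝ 1 tau z := by
  have h4 := hALG.2.2.2.2.2.2.2.2 z hz
  have h1 : ContDiffAt ℝ 1 (fun z : V => N z / (‖z 0‖ ^ 4 + ‖z 1‖ ^ 4)) z := by
    refine ContDiffAt.div ?_ ((lpf_n4 0).add (lpf_n4 1)).contDiffAt h4.ne'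
    exact ((lpf_nsq 0).add (lpf_nsq 1)).contDiffAt
  have h2 := lpf_ofReal h1
  have h3 : ContDiffAt ℝ 1 (fun z : V => 2 * z 0 * z 1) z :=
    ((contDiff_const.mul (lpf_coord 0)).mul (lpf_coord 1)).contDiffAt
  exact h3.mul h2

theorem lpf_nu (hALG : ALGStmt) (z : V) (hz : z ≠ 0) : ContDiffAt ℝ 1 nu z := by
  have h4 := hALG.2.2.2.2.2.2.2.2 z hz
  have h1 : ContDiffAt ℝ 1
      (fun z : V => (‖z 0‖ ^ 2 - ‖z 1‖ ^ 2) / (‖z 0‖ ^ 4 + ‖z 1‖ ^ 4)) z := by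
    refine ContDiffAt.div ?_ ((lpf_n4 0).add (lpf_n4 1)).contDiffAt h4.ne'
    exact ((lpf_nsq 0).sub (lpf_nsq 1)).contDiffAt
  have h2 := lpf_ofReal h1
  have hc : ∀ i : Fin 2, ContDiff ℝ 1 (fun z : V => (starRingEnd ℂ) (z i)) := by
    intro i
    exact (Complex.conjCLE.contDiff (n := 1)).comp (lpf_coord i)
  have h3 : ContDiffAt ℝ 1 (fun z : V => (starRingEnd ℂ) (z 0) * (starRingEnd ℂ) (z 1)) z :=
    ((hc 0).mul (hc 1)).contDiffAt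
  exact (contDiffAt_const.mul h2).mul h3

theorem lpf_nrm_smul (t : ℝ) (ht : 0 < t) (x : V) : nrm (t • x) = nrm x := by
  unfold nrm
  rw [norm_smul, Real.norm_of_nonneg ht.le, smul_smul]
  congr 1
  rw [mul_inv, mul_comm t⁻¹, mul_assoc, inv_mul_cancel₀ ht.ne', mul_one]

theorem lpf_f_nrm (hALH : ALHStmt) (z : V) (hz : z ≠ 0) : nrm (f z) = nrm (f (nrm z)) := by
  have h1 : nrm z = (((‖z‖⁻¹ : ℝ) : ℂ)) • z := by
    unfold nrm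
    funext i
    simp
  have h2 : f (nrm z) = ((‖z‖⁻¹ : ℝ) ^ 2) • f z := by
    rw [h1, hALH.1]
    funext i
    simp
  rw [h2, lpf_nrm_smul]
  have := norm_pos_iff.2 hz
  positivity

theorem lpf_lip (a b : V) (ha : ‖a‖ = 1) (hb : ‖b‖ = 1) : ‖f a - f b‖ ≤ 4 * ‖a - b‖ := by
  have h0 : ∀ i : Fin 2, ‖a i - b i‖ ≤ ‖a - b‖ := fun i => norm_le_pi_norm (a - b) i
  have ha' : ∀ i : Fin 2, ‖a i‖ ≤ 1 := fun i => (norm_le_pi_norm a i).trans ha.le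
  have hb' : ∀ i : Fin 2, ‖b i‖ ≤ 1 := fun i => (norm_le_pi_norm b i).trans hb.le
  have h1 : ∀ i : Fin 2, ‖a i ^ 2 - b i ^ 2‖ ≤ 2 * ‖a - b‖ := by
    intro i
    have : a i ^ 2 - b i ^ 2 = (a i + b i) * (a i - b i) := by ring
    rw [this, norm_mul]
    have h2 : ‖a i + b i‖ ≤ 2 := (norm_add_le _ _).trans (by linarith [ha' i, hb' i])
    exact mul_le_mul h2 (h0 i) (norm_nonneg _) (by norm_num)
  rw [pi_norm_le_iff_of_nonneg (by positivity)]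
  intro i
  fin_cases i
  · show ‖(a 0 ^ 2 - a 1 ^ 2) - (b 0 ^ 2 - b 1 ^ 2)‖ ≤ _
    have : (a 0 ^ 2 - a 1 ^ 2) - (b 0 ^ 2 - b 1 ^ 2) = (a 0 ^ 2 - b 0 ^ 2) - (a 1 ^ 2 - b 1 ^ 2) := by
      ring
    rw [this]
    refine (norm_sub_le _ _).trans ?_
    linarith [h1 0, h1 1]
  · show ‖(a 0 ^ 2 + a 1 ^ 2) - (b 0 ^ 2 + b 1 ^ 2)‖ ≤ _
    have : (a 0 ^ 2 + a 1 ^ 2) - (b 0 ^ 2 + b 1 ^ 2) = (a 0 ^ 2 - b 0 ^ 2) + (a 1 ^ 2 - b 1 ^ 2) := by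
      ring
    rw [this]
    refine (norm_add_le _ _).trans ?_
    linarith [h1 0, h1 1]

theorem lpf_low (hALG : ALGStmt) (hALH : ALHStmt) (a : V) (ha : ‖a‖ = 1) : 1 / 2 ≤ ‖f a‖ := by
  have h1 := (hALG.2.2.2.2.2.1 a).1
  have h2 := (hALH.2.2.1 a).1
  have h3 := (hALH.2.2.1 (f a)).2
  rw [ha] at h2
  have h4 : 1 ≤ N a ^ 2 := by nlinarith
  by_contra h
  push Not at h
  have h5 := norm_nonneg (f a)
  nlinarith

/-- Row `LPF`. -/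
theorem LPF_thm (hALG : ALGStmt) (hALH : ALHStmt) (hNRM : NRMStmt) (hLPL : LPLStmt) : LPFStmt := by
  obtain ⟨L1, hL1, h1⟩ := hLPL ℂ tau (lpf_tau hALG) (fun t z ht => (hALH.2.2.2.2 t z ht).1)
  obtain ⟨L2, hL2, h2⟩ := hLPL ℂ nu (lpf_nu hALG) (fun t z ht => (hALH.2.2.2.2 t z ht).2)
  refine ⟨L1 + L2 + 16, by linarith, fun z w hz hw => ?_⟩
  have hd : 0 ≤ ‖nrm z - nrm w‖ := norm_nonneg _
  refine ⟨?_, ?_, ?_⟩
  · refine (h1 z w hz hw).trans ?_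
    nlinarith
  · refine (h2 z w hz hw).trans ?_
    nlinarith
  · obtain ⟨a1, a2⟩ := hNRM.2 z hz
    obtain ⟨b1, b2⟩ := hNRM.2 w hw
    rw [lpf_f_nrm hALH z hz, lpf_f_nrm hALH w hw]
    have hfa := hALG.2.2.2.2.2.2.2.1 _ a2
    have hfb := hALG.2.2.2.2.2.2.2.1 _ b2
    have h3 := hNRM.1 _ _ hfa hfb
    have h4 := lpf_lip _ _ a1 b1
    have h5 := lpf_low hALG hALH _ a1
    refine h3.trans ?_
    rw [div_le_iff₀ (by linarith)]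
    have h6 : (L1 + L2 + 16) * ‖nrm z - nrm w‖ * (1 / 2) ≤
        (L1 + L2 + 16) * ‖nrm z - nrm w‖ * ‖f (nrm z)‖ :=
      mul_le_mul_of_nonneg_left h5 (by positivity)
    refine le_trans ?_ h6
    nlinarith

end Pool.CBD
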